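import Mathlib

set_option autoImplicit false

/-!
# Rainbow-free weakly rainbow saturated graphs: complete graphs minus an edge
-/

namespace Pool.Agent.Results.MP_e47ea7_co.CompleteMinusEdge

/-- The pair `f` has the colour `a` in the edge-coloured graph obtained from the graph `G`, coloured by `χ`,
by adding the edges `e 0, ..., e i` with the colours `c 0, ..., c i`. -/
def HasCol {V : Type} (G : SimpleGraph V) (χ : Sym2 V → ℕ) {m : ℕ} (e : Fin m → Sym2 V) (c : Fin m → ℕ)
    (i : Fin m) (f : Sym2 V) (a : ℕ) : Prop :=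
  (f ∈ G.edgeSet ∧ χ f = a) ∨ ∃ j : Fin m, j ≤ i ∧ e j = f ∧ c j = a

/-- `φ`, together with the colours `a`, is a rainbow copy of `H` in the edge-coloured graph in which the pair
`f` has the colour `k` if `C f k` holds: edges of `H` go to edges, whose colours are pairwise distinct. -/
def IsRainbowCopy {V W : Type} (H : SimpleGraph W) (C : Sym2 V → ℕ → Prop) (φ : W ↪ V) (a : Sym2 W → ℕ) :
    Prop :=
  (∀ f ∈ H.edgeSet, C (f.map φ) (a f)) ∧ (∀ f ∈ H.edgeSet, ∀ f' ∈ H.edgeSet, a f = a f' → f = f')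

/-- The graph `G`, with the edge-colouring `χ`, is weakly `H`-rainbow saturated: the pairs of distinct
vertices which are not edges of `G` can be listed as `e 0, e 1, ...` so that, for all pairwise distinct
colours `c 0, c 1, ...`, once the edges `e 0, ..., e i` are added with the colours `c 0, ..., c i`, the edge
`e i` lies in a rainbow copy of `H`. -/
def IsWeaklySat {V W : Type} (H : SimpleGraph W) (G : SimpleGraph V) (χ : Sym2 V → ℕ) : Prop :=
  ∃ (m : ℕ) (e : Fin m → Sym2 V), Function.Injective e ∧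
    (∀ f : Sym2 V, f ∈ Set.range e ↔ ¬ f.IsDiag ∧ f ∉ G.edgeSet) ∧
    ∀ c : Fin m → ℕ, Function.Injective c → ∀ i : Fin m, ∃ (φ : W ↪ V) (a : Sym2 W → ℕ),
      IsRainbowCopy H (HasCol G χ e c i) φ a ∧ ∃ f ∈ H.edgeSet, f.map φ = e i

/-- The graph `G`, with the edge-colouring `χ`, has no rainbow copy of `H`. -/
def IsRainbowFree {V W : Type} (H : SimpleGraph W) (G : SimpleGraph V) (χ : Sym2 V → ℕ) : Prop :=
  ¬ ∃ (φ : W ↪ V) (a : Sym2 W → ℕ), IsRainbowCopy H (fun f k => f ∈ G.edgeSet ∧ χ f = k) φ a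

/-- The weak rainbow saturation number `rwsat(n, H)`. -/
noncomputable def rwsat {W : Type} (n : ℕ) (H : SimpleGraph W) : ℕ∞ :=
  ⨅ (G : SimpleGraph (Fin n)) (χ : Sym2 (Fin n) → ℕ) (_ : IsWeaklySat H G χ), (G.edgeSet.ncard : ℕ∞)

/-- The number `rwsat*(n, H)`: the same minimum over the rainbow `H`-free `(G, χ)` only. -/
noncomputable def rwsatFree {W : Type} (n : ℕ) (H : SimpleGraph W) : ℕ∞ :=
  ⨅ (G : SimpleGraph (Fin n)) (χ : Sym2 (Fin n) → ℕ) (_ : IsWeaklySat H G χ) (_ : IsRainbowFree H G χ),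
    (G.edgeSet.ncard : ℕ∞)

/-- The complete graph on `n` vertices minus the edge `{0, 1}`. -/
def KM (n : ℕ) : SimpleGraph (Fin n) where
  Adj u v := u ≠ v ∧ (u : ℕ) + v ≠ 1
  symm := ⟨fun u v h => ⟨h.1.symm, by rw [add_comm]; exact h.2⟩⟩
  loopless := ⟨fun u h => h.1 rfl⟩

section

variable {n : ℕ}

/-- The missing edge. -/
def e0 (hn : 3 ≤ n) : Sym2 (Fin n) := s(⟨0, by omega⟩, ⟨1, by omega⟩)

lemma KM_mem (hn : 3 ≤ n) (f : Sym2 (Fin n)) : f ∈ (KM n).edgeSet ↔ ¬ f.IsDiag ∧ f ≠ e0 hn := by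
  induction f using Sym2.ind with
  | _ x y =>
    rw [SimpleGraph.mem_edgeSet, Sym2.mk_isDiag_iff]
    change (x ≠ y ∧ (x : ℕ) + y ≠ 1) ↔ _
    constructor
    · rintro ⟨h1, h2⟩
      refine ⟨h1, ?_⟩
      intro h
      apply h2
      unfold e0 at h
      rw [Sym2.eq_iff] at h
      rcases h with ⟨rfl, rfl⟩ | ⟨rfl, rfl⟩ <;> rfl
    · rintro ⟨h1, h2⟩
      refine ⟨h1, ?_⟩
      intro h
      apply h2
      unfold e0
      rw [Sym2.eq_iff]
      have : ((x : ℕ) = 0 ∧ (y : ℕ) = 1) ∨ ((x : ℕ) = 1 ∧ (y : ℕ) = 0) := by omega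
      rcases this with ⟨h3, h4⟩ | ⟨h3, h4⟩
      · left; exact ⟨Fin.ext h3, Fin.ext h4⟩
      · right; exact ⟨Fin.ext h3, Fin.ext h4⟩

lemma e0_not_diag (hn : 3 ≤ n) : ¬ (e0 hn).IsDiag := by
  unfold e0
  rw [Sym2.mk_isDiag_iff]
  intro h
  have := congrArg Fin.val h
  simp at this

/-- An embedding of the `n` vertices into themselves misses exactly one pair. -/
lemma copy_cover (hn : 3 ≤ n) (φ : Fin n ↪ Fin n) (f : Sym2 (Fin n)) (hf : ¬ f.IsDiag)
    (hne : f ≠ (e0 hn).map φ) : ∃ g ∈ (KM n).edgeSet, g.map φ = f := by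
  have hb : Function.Bijective φ := (Finite.injective_iff_bijective).1 φ.injective
  obtain ⟨ψ, hψ1, hψ2⟩ := Function.bijective_iff_has_inverse.1 hb
  have h1 : ∀ f : Sym2 (Fin n), (f.map ψ).map φ = f := by
    intro f
    rw [Sym2.map_map]
    have : (φ : Fin n → Fin n) ∘ ψ = id := funext hψ2
    rw [this, Sym2.map_id]
    rfl
  refine ⟨f.map ψ, ?_, h1 f⟩
  rw [KM_mem hn]
  constructor
  · intro h
    apply hf
    rw [← h1 f]
    induction f using Sym2.ind with
    | _ x y =>
      rw [Sym2.map_mk, Sym2.mk_isDiag_iff] at h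
      rw [Sym2.map_mk, Sym2.map_mk, Sym2.mk_isDiag_iff]
      exact congrArg φ h
  · intro h
    apply hne
    rw [← h, h1]

/-- There is a third pair. -/
lemma exists_third (hn : 3 ≤ n) (f f' : Sym2 (Fin n)) : ∃ g : Sym2 (Fin n), ¬ g.IsDiag ∧ g ≠ f ∧ g ≠ f' := by
  by_contra hcon
  push Not at hcon
  have h01 : ¬ (s((⟨0, by omega⟩ : Fin n), ⟨1, by omega⟩)).IsDiag := by
    rw [Sym2.mk_isDiag_iff]; intro h; have := congrArg Fin.val h; simp at this
  have h02 : ¬ (s((⟨0, by omega⟩ : Fin n), ⟨2, by omega⟩)).IsDiag := by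
    rw [Sym2.mk_isDiag_iff]; intro h; have := congrArg Fin.val h; simp at this
  have h12 : ¬ (s((⟨1, by omega⟩ : Fin n), ⟨2, by omega⟩)).IsDiag := by
    rw [Sym2.mk_isDiag_iff]; intro h; have := congrArg Fin.val h; simp at this
  have d1 : s((⟨0, by omega⟩ : Fin n), ⟨1, by omega⟩) ≠ s(⟨0, by omega⟩, ⟨2, by omega⟩) := by
    intro h; rw [Sym2.eq_iff] at h; simp at h
  have d2 : s((⟨0, by omega⟩ : Fin n), ⟨1, by omega⟩) ≠ s(⟨1, by omega⟩, ⟨2, by omega⟩) := by
    intro h; rw [Sym2.eq_iff] at h; simp at h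
  have d3 : s((⟨0, by omega⟩ : Fin n), ⟨2, by omega⟩) ≠ s(⟨1, by omega⟩, ⟨2, by omega⟩) := by
    intro h; rw [Sym2.eq_iff] at h; simp at h
  by_cases a1 : s((⟨0, by omega⟩ : Fin n), ⟨1, by omega⟩) = f
  · by_cases a2 : s((⟨0, by omega⟩ : Fin n), ⟨2, by omega⟩) = f
    · exact d1 (a1.trans a2.symm)
    · by_cases a3 : s((⟨1, by omega⟩ : Fin n), ⟨2, by omega⟩) = f
      · exact d2 (a1.trans a3.symm)
      · exact d3 ((hcon _ h02 a2).trans (hcon _ h12 a3).symm)
  · by_cases a2 : s((⟨0, by omega⟩ : Fin n), ⟨2, by omega⟩) = f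
    · by_cases a3 : s((⟨1, by omega⟩ : Fin n), ⟨2, by omega⟩) = f
      · exact d3 (a2.trans a3.symm)
      · exact d2 ((hcon _ h01 a1).trans (hcon _ h12 a3).symm)
    · exact d1 ((hcon _ h01 a1).trans (hcon _ h02 a2).symm)

/-- Weakly saturated graphs have at most one non-edge. -/
lemma le_one (hn : 3 ≤ n) {G : SimpleGraph (Fin n)} {χ : Sym2 (Fin n) → ℕ} {m : ℕ} {e : Fin m → Sym2 (Fin n)}
    (he : Function.Injective e) (hrange : ∀ f : Sym2 (Fin n), f ∈ Set.range e ↔ ¬ f.IsDiag ∧ f ∉ G.edgeSet)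
    (H : ∀ c : Fin m → ℕ, Function.Injective c → ∀ i : Fin m, ∃ (φ : Fin n ↪ Fin n) (a : Sym2 (Fin n) → ℕ),
      IsRainbowCopy (KM n) (HasCol G χ e c i) φ a ∧ ∃ f ∈ (KM n).edgeSet, f.map φ = e i) : m ≤ 1 := by
  by_contra hm
  push Not at hm
  set i0 : Fin m := ⟨0, by omega⟩ with hi0
  set i1 : Fin m := ⟨1, by omega⟩ with hi1
  have h01 : e i1 ≠ e i0 := by
    intro h
    have := congrArg Fin.val (he h)
    simp [hi0, hi1] at this
  obtain ⟨g, hg, hg0, hg1⟩ := exists_third hn (e i0) (e i1)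
  obtain ⟨φ, a, ⟨hcol, hinj⟩, -⟩ := H (fun i => χ g + i) (fun i j h => Fin.ext (by simpa using h)) i0
  have hle : ∀ j : Fin m, j ≤ i0 → j = i0 := fun j hj => Fin.ext (by
    have := Fin.le_def.1 hj
    simp only [hi0] at this ⊢
    omega)
  -- the missing pair of the copy is `e 1`
  have hmiss : e i1 = (e0 hn).map φ := by
    by_contra hne
    have hnot := (hrange (e i1)).1 ⟨i1, rfl⟩
    obtain ⟨f, hf, hfe⟩ := copy_cover hn φ (e i1) hnot.1 hne
    rcases hcol f hf with ⟨h1, -⟩ | ⟨j, hj, hej, -⟩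
    · exact hnot.2 (hfe ▸ h1)
    · rw [hle j hj, hfe] at hej
      exact h01 hej.symm
  obtain ⟨f, hf, hfg⟩ := copy_cover hn φ g hg (by rw [← hmiss]; exact hg1)
  obtain ⟨f', hf', hfe'⟩ := copy_cover hn φ (e i0) ((hrange (e i0)).1 ⟨i0, rfl⟩).1 (by
    rw [← hmiss]; exact h01.symm)
  have c1 : a f = χ g := by
    rcases hcol f hf with ⟨h1, h2⟩ | ⟨j, hj, hej, -⟩
    · rw [← h2, hfg]
    · rw [hle j hj, hfg] at hej
      exact absurd hej.symm hg0
  have c2 : a f' = χ g := by
    rcases hcol f' hf' with ⟨h1, h2⟩ | ⟨j, hj, hej, hcj⟩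
    · rw [hfe'] at h1
      exact absurd h1 ((hrange (e i0)).1 ⟨i0, rfl⟩).2
    · rw [hle j hj] at hcj
      rw [← hcj]
      simp [hi0]
  have := hinj f hf f' hf' (c1.trans c2.symm)
  rw [this, hfe'] at hfg
  exact hg0 hfg.symm

/-- Weakly saturated graphs without a rainbow copy are complete. -/
lemma eq_zero (hn : 3 ≤ n) {G : SimpleGraph (Fin n)} {χ : Sym2 (Fin n) → ℕ} {m : ℕ} {e : Fin m → Sym2 (Fin n)}
    (he : Function.Injective e) (hrange : ∀ f : Sym2 (Fin n), f ∈ Set.range e ↔ ¬ f.IsDiag ∧ f ∉ G.edgeSet)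
    (H : ∀ c : Fin m → ℕ, Function.Injective c → ∀ i : Fin m, ∃ (φ : Fin n ↪ Fin n) (a : Sym2 (Fin n) → ℕ),
      IsRainbowCopy (KM n) (HasCol G χ e c i) φ a ∧ ∃ f ∈ (KM n).edgeSet, f.map φ = e i)
    (hfree : IsRainbowFree (KM n) G χ) : m = 0 := by
  by_contra hm
  have hm1 : m = 1 := by
    have := le_one hn he hrange H
    omega
  subst hm1
  have hG : ∀ f : Sym2 (Fin n), f ∈ G.edgeSet ↔ ¬ f.IsDiag ∧ f ≠ e 0 := by
    intro f
    have h1 := hrange f
    constructor
    · intro h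
      refine ⟨SimpleGraph.not_isDiag_of_mem_edgeSet _ h, ?_⟩
      rintro rfl
      exact (h1.1 ⟨0, rfl⟩).2 h
    · rintro ⟨h2, h3⟩
      by_contra h4
      obtain ⟨j, hj⟩ := h1.2 ⟨h2, h4⟩
      rw [Subsingleton.elim j 0] at hj
      exact h3 hj.symm
  have he0 : ¬ (e 0).IsDiag := ((hrange (e 0)).1 ⟨0, rfl⟩).1
  -- two edges with the same colour
  have hrep : ∃ g ∈ G.edgeSet, ∃ g' ∈ G.edgeSet, g ≠ g' ∧ χ g = χ g' := by
    by_contra hcon
    push Not at hcon
    apply hfree
    -- an embedding taking the missing edge to `e 0`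
    obtain ⟨φ, hφ⟩ : ∃ φ : Fin n ↪ Fin n, (e0 hn).map φ = e 0 := by
      generalize e 0 = f at he0
      induction f using Sym2.ind with
      | _ x y =>
        rw [Sym2.mk_isDiag_iff] at he0
        set z : Fin n := ⟨0, by omega⟩ with hz
        set o : Fin n := ⟨1, by omega⟩ with ho
        have hzo : z ≠ o := by
          intro h
          have := congrArg Fin.val h
          simp [hz, ho] at this
        refine ⟨((Equiv.swap z x).trans (Equiv.swap ((Equiv.swap z x) o) y)).toEmbedding, ?_⟩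
        unfold e0
        rw [Sym2.map_mk, Sym2.eq_iff]
        left
        constructor
        · change Equiv.swap ((Equiv.swap z x) o) y (Equiv.swap z x z) = x
          rw [Equiv.swap_apply_left, Equiv.swap_apply_of_ne_of_ne]
          · intro h
            have h2 : Equiv.swap z x z = Equiv.swap z x o := by rw [Equiv.swap_apply_left]; exact h
            exact hzo ((Equiv.swap z x).injective h2)
          · exact he0
        · change Equiv.swap ((Equiv.swap z x) o) y (Equiv.swap z x o) = y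
          rw [Equiv.swap_apply_left]
    have hmapinj : Function.Injective (Sym2.map φ) := Sym2.map.injective φ.injective
    refine ⟨φ, fun f => χ (f.map φ), ?_, ?_⟩
    · intro f hf
      rw [KM_mem hn] at hf
      refine ⟨?_, rfl⟩
      rw [hG]
      constructor
      · intro h
        apply hf.1
        induction f using Sym2.ind with
        | _ x y =>
          rw [Sym2.map_mk, Sym2.mk_isDiag_iff] at h
          rw [Sym2.mk_isDiag_iff]
          exact φ.injective h
      · intro h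
        apply hf.2
        rw [← hφ] at h
        exact hmapinj h
    · intro f hf f' hf' h
      by_contra hne
      have hmem : ∀ f ∈ (KM n).edgeSet, f.map φ ∈ G.edgeSet := by
        intro f hf
        rw [KM_mem hn] at hf
        rw [hG]
        constructor
        · intro h
          apply hf.1
          induction f using Sym2.ind with
          | _ x y =>
            rw [Sym2.map_mk, Sym2.mk_isDiag_iff] at h
            rw [Sym2.mk_isDiag_iff]
            exact φ.injective h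
        · intro h
          apply hf.2
          rw [← hφ] at h
          exact hmapinj h
      exact hcon _ (hmem f hf) _ (hmem f' hf') (fun h' => hne (hmapinj h')) h
  obtain ⟨g, hg, g', hg', hgg', hχ⟩ := hrep
  obtain ⟨φ, a, ⟨hcol, hinj⟩, f, hf, hfe⟩ := H (fun _ => χ g) (Function.injective_of_subsingleton _) 0
  have hmapinj : Function.Injective (Sym2.map φ) := Sym2.map.injective φ.injective
  have hfa : a f = χ g := by
    rcases hcol f hf with ⟨h1, h2⟩ | ⟨j, hj, hej, hcj⟩
    · rw [hfe] at h1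
      exact absurd rfl ((hG (e 0)).1 h1).2
    · rw [← hcj]
  have key : ∀ k ∈ G.edgeSet, χ k = χ g → k = (e0 hn).map φ := by
    intro k hk hχk
    by_contra hne
    obtain ⟨q, hq, hqk⟩ := copy_cover hn φ k (((hG k).1 hk).1) hne
    have hqa : a q = χ g := by
      rcases hcol q hq with ⟨h1, h2⟩ | ⟨j, hj, hej, hcj⟩
      · rw [← h2, hqk, hχk]
      · rw [← hcj]
    have := hinj q hq f hf (hqa.trans hfa.symm)
    rw [this, hfe] at hqk
    exact ((hG k).1 hk).2 hqk.symm
  exact hgg' ((key g hg rfl).trans (key g' hg' hχ.symm).symm)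

/-- The complete graph minus an edge, with all the colours distinct, is weakly saturated. -/
lemma KM_sat (hn : 3 ≤ n) : ∃ χ : Sym2 (Fin n) → ℕ, IsWeaklySat (KM n) (KM n) χ := by
  classical
  obtain ⟨χ, hχ⟩ : ∃ χ : Sym2 (Fin n) → ℕ, Function.Injective χ :=
    ⟨fun f => (Fintype.equivFin (Sym2 (Fin n)) f : ℕ), fun f f' h => by
      have h2 : Fintype.equivFin (Sym2 (Fin n)) f = Fintype.equivFin (Sym2 (Fin n)) f' := Fin.ext h
      exact (Fintype.equivFin _).injective h2⟩
  refine ⟨χ, 1, fun _ => e0 hn, Function.injective_of_subsingleton _, ?_, ?_⟩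
  · intro f
    rw [KM_mem hn]
    constructor
    · rintro ⟨_, rfl⟩
      exact ⟨e0_not_diag hn, fun h => h.2 rfl⟩
    · rintro ⟨h1, h2⟩
      push Not at h2
      exact ⟨0, (h2 h1).symm⟩
  · intro c _ i
    rw [Subsingleton.elim i 0]
    -- the pair to be avoided
    obtain ⟨k, hk, hkc⟩ : ∃ k ∈ (KM n).edgeSet, ∀ f ∈ (KM n).edgeSet, χ f = c 0 → f = k := by
      by_cases h : ∃ k ∈ (KM n).edgeSet, χ k = c 0
      · obtain ⟨k, hk, hkc⟩ := h
        exact ⟨k, hk, fun f _ hf2 => hχ (hf2.trans hkc.symm)⟩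
      · obtain ⟨g, hg, hg0, -⟩ := exists_third hn (e0 hn) (e0 hn)
        exact ⟨g, (KM_mem hn g).2 ⟨hg, hg0⟩, fun f hf1 hf2 => absurd ⟨f, hf1, hf2⟩ h⟩
    obtain ⟨φ, hφ⟩ : ∃ φ : Fin n ↪ Fin n, (e0 hn).map φ = k := by
      have hkd := ((KM_mem hn k).1 hk).1
      clear hk hkc
      induction k using Sym2.ind with
      | _ x y =>
        rw [Sym2.mk_isDiag_iff] at hkd
        set z : Fin n := ⟨0, by omega⟩ with hz
        set o : Fin n := ⟨1, by omega⟩ with ho
        have hzo : z ≠ o := by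
          intro h
          have := congrArg Fin.val h
          simp [hz, ho] at this
        refine ⟨((Equiv.swap z x).trans (Equiv.swap ((Equiv.swap z x) o) y)).toEmbedding, ?_⟩
        unfold e0
        rw [Sym2.map_mk, Sym2.eq_iff]
        left
        constructor
        · change Equiv.swap ((Equiv.swap z x) o) y (Equiv.swap z x z) = x
          rw [Equiv.swap_apply_left, Equiv.swap_apply_of_ne_of_ne]
          · intro h
            have h2 : Equiv.swap z x z = Equiv.swap z x o := by rw [Equiv.swap_apply_left]; exact h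
            exact hzo ((Equiv.swap z x).injective h2)
          · exact hkd
        · change Equiv.swap ((Equiv.swap z x) o) y (Equiv.swap z x o) = y
          rw [Equiv.swap_apply_left]
    have hmapinj : Function.Injective (Sym2.map φ) := Sym2.map.injective φ.injective
    have hmem : ∀ f ∈ (KM n).edgeSet, ¬ (f.map φ).IsDiag ∧ f.map φ ≠ k := by
      intro f hf
      rw [KM_mem hn] at hf
      constructor
      · intro h
        apply hf.1
        induction f using Sym2.ind with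
        | _ x y =>
          rw [Sym2.map_mk, Sym2.mk_isDiag_iff] at h
          rw [Sym2.mk_isDiag_iff]
          exact φ.injective h
      · intro h
        apply hf.2
        rw [← hφ] at h
        exact hmapinj h
    refine ⟨φ, fun f => if f.map φ = e0 hn then c 0 else χ (f.map φ), ⟨?_, ?_⟩, ?_⟩
    · intro f hf
      by_cases h : f.map φ = e0 hn
      · beta_reduce
        rw [if_pos h]
        exact Or.inr ⟨0, le_rfl, h.symm, rfl⟩
      · beta_reduce
        rw [if_neg h]
        exact Or.inl ⟨(KM_mem hn _).2 ⟨(hmem f hf).1, h⟩, rfl⟩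
    · intro f hf f' hf' h
      by_cases h1 : f.map φ = e0 hn <;> by_cases h2 : f'.map φ = e0 hn
      · exact hmapinj (h1.trans h2.symm)
      · simp only [h1, h2, if_true, if_false] at h
        exact absurd (hkc _ ((KM_mem hn _).2 ⟨(hmem f' hf').1, h2⟩) h.symm) (hmem f' hf').2
      · simp only [h1, h2, if_true, if_false] at h
        exact absurd (hkc _ ((KM_mem hn _).2 ⟨(hmem f hf).1, h1⟩) h) (hmem f hf).2
      · simp only [h1, h2, if_false] at h
        exact hmapinj (hχ h)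
    · obtain ⟨g, hg, hge⟩ := copy_cover hn φ (e0 hn) (e0_not_diag hn) (by
        rw [hφ]
        exact (((KM_mem hn k).1 hk).2).symm)
      exact ⟨g, hg, hge⟩

/-- The number of edges. -/
lemma ncard_eq {G : SimpleGraph (Fin n)} {m : ℕ} {e : Fin m → Sym2 (Fin n)}
    (he : Function.Injective e) (hrange : ∀ f : Sym2 (Fin n), f ∈ Set.range e ↔ ¬ f.IsDiag ∧ f ∉ G.edgeSet) :
    G.edgeSet.ncard = n.choose 2 - m := by
  classical
  have h1 : (⊤ : SimpleGraph (Fin n)).edgeSet.ncard = n.choose 2 := by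
    rw [← SimpleGraph.coe_edgeFinset, Set.ncard_coe_finset, SimpleGraph.card_edgeFinset_top_eq_card_choose_two,
      Fintype.card_fin]
  have h2 : G.edgeSet = (⊤ : SimpleGraph (Fin n)).edgeSet \ Set.range e := by
    ext f
    rw [Set.mem_sdiff, SimpleGraph.edgeSet_top, hrange]
    constructor
    · intro h
      exact ⟨SimpleGraph.not_isDiag_of_mem_edgeSet _ h, fun h' => h'.2 h⟩
    · rintro ⟨h3, h4⟩
      by_contra h5
      exact h4 ⟨h3, h5⟩
  have h3 : (Set.range e).ncard = m := by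
    rw [← Set.image_univ, Set.ncard_image_of_injective _ he, Set.ncard_univ, Nat.card_eq_fintype_card,
      Fintype.card_fin]
  have h4 : Set.range e ⊆ (⊤ : SimpleGraph (Fin n)).edgeSet := by
    intro f hf
    rw [SimpleGraph.edgeSet_top]
    exact ((hrange f).1 hf).1
  rw [h2, Set.ncard_sdiff h4, h1, h3]

theorem rwsat_KM (hn : 3 ≤ n) : rwsat n (KM n) = ((n.choose 2 - 1 : ℕ) : ℕ∞) := by
  apply le_antisymm
  · obtain ⟨χ, h⟩ := KM_sat hn
    obtain ⟨m, e, he, hrange, H⟩ := id h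
    refine (iInf_le_of_le (KM n) (iInf_le_of_le χ (iInf_le_of_le h ?_)))
    have hm : 1 ≤ m := by
      obtain ⟨i, hi⟩ := (hrange (e0 hn)).2 ⟨e0_not_diag hn, fun h => ((KM_mem hn _).1 h).2 rfl⟩
      have := i.2
      omega
    rw [ncard_eq he hrange]
    exact_mod_cast Nat.sub_le_sub_left hm _
  · refine le_iInf fun G => le_iInf fun χ => le_iInf fun h => ?_
    obtain ⟨m, e, he, hrange, H⟩ := h
    rw [ncard_eq he hrange]
    have := le_one hn he hrange H
    exact_mod_cast Nat.sub_le_sub_left this _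

theorem rwsatFree_KM (hn : 3 ≤ n) : rwsatFree n (KM n) = (n.choose 2 : ℕ∞) := by
  apply le_antisymm
  · have hsat : IsWeaklySat (KM n) (⊤ : SimpleGraph (Fin n)) (fun _ => 0) := by
      refine ⟨0, fun i => i.elim0, fun i => i.elim0, ?_, fun c _ i => i.elim0⟩
      intro f
      constructor
      · rintro ⟨i, _⟩
        exact i.elim0
      · rintro ⟨h1, h2⟩
        exfalso
        apply h2
        rw [SimpleGraph.edgeSet_top]
        exact h1
    have hfree : IsRainbowFree (KM n) (⊤ : SimpleGraph (Fin n)) (fun _ => 0) := by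
      rintro ⟨φ, a, h1, h2⟩
      obtain ⟨g, hg, hg0, -⟩ := exists_third hn (e0 hn) (e0 hn)
      obtain ⟨g', hg', hg0', hgg'⟩ := exists_third hn (e0 hn) g
      have m1 := (KM_mem hn g).2 ⟨hg, hg0⟩
      have m2 := (KM_mem hn g').2 ⟨hg', hg0'⟩
      have := h2 g m1 g' m2 ((h1 g m1).2.symm.trans (h1 g' m2).2)
      exact hgg' this.symm
    refine (iInf_le_of_le ⊤ (iInf_le_of_le (fun _ => 0) (iInf_le_of_le hsat (iInf_le_of_le hfree ?_))))
    obtain ⟨m, e, he, hrange, H⟩ := hsat
    rw [ncard_eq he hrange]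
    exact_mod_cast Nat.sub_le _ _
  · refine le_iInf fun G => le_iInf fun χ => le_iInf fun h => le_iInf fun hfree => ?_
    obtain ⟨m, e, he, hrange, H⟩ := h
    rw [ncard_eq he hrange, eq_zero hn he hrange H hfree]
    simp

end

/-- For every `n ≥ 3` and `H` the complete graph on `n` vertices minus an edge, `rwsat(n, H) = C(n,2) - 1` and
`rwsat*(n, H) = C(n,2)`. So it is false that `rwsat*(n, H) = rwsat(n, H)` for every graph `H` with at least one
edge and every `n ≥ 1`. -/
theorem result :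
    (∀ n : ℕ, 3 ≤ n → rwsat n (KM n) = ((n.choose 2 - 1 : ℕ) : ℕ∞) ∧ rwsatFree n (KM n) = (n.choose 2 : ℕ∞) ∧
      rwsatFree n (KM n) ≠ rwsat n (KM n)) ∧
    ¬ (∀ (h : ℕ) (H : SimpleGraph (Fin h)), H.edgeSet.Nonempty → ∀ n : ℕ, 1 ≤ n →
      rwsatFree n H = rwsat n H) := by
  have key : ∀ n : ℕ, 3 ≤ n → rwsatFree n (KM n) ≠ rwsat n (KM n) := by
    intro n hn
    rw [rwsat_KM hn, rwsatFree_KM hn]
    intro h
    have h2 : n.choose 2 = n.choose 2 - 1 := by exact_mod_cast h
    have h3 : 0 < n.choose 2 := Nat.choose_pos (by omega)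
    omega
  refine ⟨fun n hn => ⟨rwsat_KM hn, rwsatFree_KM hn, key n hn⟩, ?_⟩
  intro H
  refine key 3 le_rfl (H 3 (KM 3) ?_ 3 (by norm_num))
  obtain ⟨g, hg, hg0, -⟩ := exists_third (n := 3) le_rfl (e0 le_rfl) (e0 le_rfl)
  exact ⟨g, (KM_mem le_rfl g).2 ⟨hg, hg0⟩⟩

end Pool.Agent.Results.MP_e47ea7_co.CompleteMinusEdge
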